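/-
Module ETA of project PI (MP_e49510_nt): the multiplier system of the square of the Dedekind eta
function on the full modular group.
-/
import Pool.Agent.H22.Pi.Defs

set_option autoImplicit false

namespace Pool.Agent.H85.Pi

open Complex Pool.Agent.H22.Pi
open scoped Real MatrixGroups

namespace EtaAux

/-- The twelfth root of unity with exponent `n`. -/
noncomputable def chi (n : ℤ) : ℂ := cexp (2 * π * I / 12 * (n : ℤ))

lemma chi_add (m n : ℤ) : chi (m + n) = chi m * chi n := by
  unfold chi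
  rw [← Complex.exp_add]
  congr 1
  push_cast
  ring

lemma chi_zero : chi 0 = 1 := by simp [chi]

lemma chi_twelve_mul (k : ℤ) : chi (12 * k) = 1 := by
  unfold chi
  rw [Complex.exp_eq_one_iff]
  exact ⟨k, by push_cast; ring⟩

lemma chi_congr {m n : ℤ} (h : (12 : ℤ) ∣ m - n) : chi m = chi n := by
  obtain ⟨k, hk⟩ := h
  have : m = n + 12 * k := by linarith
  rw [this, chi_add, chi_twelve_mul, mul_one]

lemma chi_ne_zero (n : ℤ) : chi n ≠ 0 := Complex.exp_ne_zero _

lemma chi_neg (n : ℤ) : chi (-n) = (chi n)⁻¹ := by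
  have h : chi (-n) * chi n = 1 := by rw [← chi_add, neg_add_cancel, chi_zero]
  exact eq_inv_of_mul_eq_one_left h

lemma chi_pow_twelve (n : ℤ) : chi n ^ 12 = 1 := by
  unfold chi
  rw [← Complex.exp_nat_mul, Complex.exp_eq_one_iff]
  exact ⟨n, by push_cast; ring⟩

lemma chi_three : chi 3 = I := by
  unfold chi
  have : (2 * π * I / 12 * ((3 : ℤ) : ℂ)) = π / 2 * I := by push_cast; ring
  rw [this, Complex.exp_pi_div_two_mul_I]

/-- `12 ∣ x` from the residues modulo three and four. -/
lemma twelve_dvd {x : ℤ} (h3 : (x : ZMod 3) = 0) (h4 : (x : ZMod 4) = 0) : (12 : ℤ) ∣ x := by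
  have h3' : (3 : ℤ) ∣ x := (ZMod.intCast_zmod_eq_zero_iff_dvd x 3).mp h3
  have h4' : (4 : ℤ) ∣ x := (ZMod.intCast_zmod_eq_zero_iff_dvd x 4).mp h4
  omega

lemma phi_S {a b c d : ℤ} (h : a * d - b * c = 1) :
    (12 : ℤ) ∣ phi b (-a) d (-c) - (phi a b c d + -3) := by
  apply twelve_dvd
  · have key : ∀ a b c d : ZMod 3, a * d - b * c = 1 →
      ((1 - d ^ 2) * (-a * -c + 3 * (d - 1) * -c + d + 3) + d * (b + -c - 3))
        - (((1 - c ^ 2) * (b * d + 3 * (c - 1) * d + c + 3) + c * (a + d - 3)) + -3) = 0 := by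
      decide
    have := key a b c d (by exact_mod_cast congrArg (Int.cast : ℤ → ZMod 3) h)
    unfold phi
    push_cast
    exact this
  · have key : ∀ a b c d : ZMod 4, a * d - b * c = 1 →
      ((1 - d ^ 2) * (-a * -c + 3 * (d - 1) * -c + d + 3) + d * (b + -c - 3))
        - (((1 - c ^ 2) * (b * d + 3 * (c - 1) * d + c + 3) + c * (a + d - 3)) + -3) = 0 := by
      decide
    have := key a b c d (by exact_mod_cast congrArg (Int.cast : ℤ → ZMod 4) h)
    unfold phi
    push_cast
    exact this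

lemma phi_T {a b c d : ℤ} (h : a * d - b * c = 1) :
    (12 : ℤ) ∣ phi a (a + b) c (c + d) - (phi a b c d + 1) := by
  apply twelve_dvd
  · have key : ∀ a b c d : ZMod 3, a * d - b * c = 1 →
      ((1 - c ^ 2) * ((a + b) * (c + d) + 3 * (c - 1) * (c + d) + c + 3) + c * (a + (c + d) - 3))
        - (((1 - c ^ 2) * (b * d + 3 * (c - 1) * d + c + 3) + c * (a + d - 3)) + 1) = 0 := by
      decide
    have := key a b c d (by exact_mod_cast congrArg (Int.cast : ℤ → ZMod 3) h)
    unfold phi
    push_cast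
    exact this
  · have key : ∀ a b c d : ZMod 4, a * d - b * c = 1 →
      ((1 - c ^ 2) * ((a + b) * (c + d) + 3 * (c - 1) * (c + d) + c + 3) + c * (a + (c + d) - 3))
        - (((1 - c ^ 2) * (b * d + 3 * (c - 1) * d + c + 3) + c * (a + d - 3)) + 1) = 0 := by
      decide
    have := key a b c d (by exact_mod_cast congrArg (Int.cast : ℤ → ZMod 4) h)
    unfold phi
    push_cast
    exact this

/-- `eta(-1/z)^2 = (z/i) eta(z)^2`. -/
lemma et_S {z : ℂ} (hz : 0 < z.im) : et (-1 / z) ^ 2 = chi (-3) * z * et z ^ 2 := by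
  have h := ModularForm.eta_comp_eq_csqrt_I_inv (show z ∈ UpperHalfPlane.upperHalfPlaneSet from hz)
  have h' : ModularForm.eta (-1 / z) = (Complex.sqrt I)⁻¹ * (Complex.sqrt z * ModularForm.eta z) := by
    simpa using h
  have hz0 : z ≠ 0 := by rintro rfl; simp at hz
  have hs : ∀ w : ℂ, w ≠ 0 → Complex.sqrt w ^ 2 = w := by
    intro w hw
    rw [Complex.sqrt, ← Complex.cpow_nat_mul]
    simp
  show ModularForm.eta (-1 / z) ^ 2 = _
  rw [h', mul_pow, mul_pow, inv_pow, hs z hz0, hs I I_ne_zero, chi_neg, chi_three]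
  ring

/-- `eta(z+1)^2 = e^(2 pi i/12) eta(z)^2`. -/
lemma et_T (z : ℂ) : et (z + 1) ^ 2 = chi 1 * et z ^ 2 := by
  have h1 : ∀ n : ℕ, ModularForm.eta_q n (z + 1) = ModularForm.eta_q n z := by
    intro n
    rw [ModularForm.eta_q_eq_cexp, ModularForm.eta_q_eq_cexp, Complex.exp_eq_exp_iff_exists_int]
    exact ⟨(n + 1 : ℕ), by push_cast; ring⟩
  have h2 : Function.Periodic.qParam 24 (z + 1) ^ 2 = chi 1 * Function.Periodic.qParam 24 z ^ 2 := by
    unfold Function.Periodic.qParam chi
    rw [← Complex.exp_nat_mul, ← Complex.exp_nat_mul, ← Complex.exp_add]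
    congr 1
    push_cast
    ring
  show ModularForm.eta (z + 1) ^ 2 = chi 1 * ModularForm.eta z ^ 2
  unfold ModularForm.eta
  simp only [h1]
  rw [mul_pow, h2, mul_pow]
  ring

lemma den_ne {c d : ℤ} (h : ¬ (c = 0 ∧ d = 0)) {z : ℂ} (hz : 0 < z.im) : (c : ℂ) * z + d ≠ 0 := by
  intro h0
  have him := congrArg Complex.im h0
  simp at him
  rcases him with hc | hzi
  · have hre := congrArg Complex.re h0
    rw [hc] at hre
    simp at hre
    exact h ⟨by exact_mod_cast hc, by exact_mod_cast hre⟩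
  · exact absurd hzi hz.ne'

/-- The property to be proved for one matrix. -/
def Good (a b c d : ℤ) : Prop := a * d - b * c = 1 ∧ ∀ z : ℂ, 0 < z.im →
  et ((a * z + b) / (c * z + d)) ^ 2 = chi (phi a b c d) * (c * z + d) * et z ^ 2

lemma good_one : Good 1 0 0 1 := by
  refine ⟨by norm_num, fun z _ => ?_⟩
  have : phi 1 0 0 1 = 0 := by norm_num [phi]
  rw [this, chi_zero]
  simp

lemma im_neg_one_div {z : ℂ} (hz : 0 < z.im) : 0 < (-1 / z).im := by
  have hz0 : z ≠ 0 := by rintro rfl; simp at hz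
  rw [neg_div, one_div, Complex.neg_im, Complex.inv_im]
  have : 0 < Complex.normSq z := Complex.normSq_pos.mpr hz0
  rw [neg_div, neg_neg]
  positivity

lemma good_S {a b c d : ℤ} (h : Good a b c d) : Good b (-a) d (-c) := by
  obtain ⟨hdet, h⟩ := h
  refine ⟨by linarith, fun z hz => ?_⟩
  have hz0 : z ≠ 0 := by rintro rfl; simp at hz
  have hz' := im_neg_one_div hz
  have h1 := h (-1 / z) hz'
  have hcd : ¬ (d = 0 ∧ -c = 0) := by
    rintro ⟨rfl, hc⟩
    have : c = 0 := by linarith
    subst this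
    simp at hdet
  have hne : (d : ℂ) * z + ((-c : ℤ) : ℂ) ≠ 0 := den_ne hcd hz
  have e1 : ((a : ℂ) * (-1 / z) + b) / ((c : ℂ) * (-1 / z) + d)
      = ((b : ℂ) * z + ((-a : ℤ) : ℂ)) / ((d : ℂ) * z + ((-c : ℤ) : ℂ)) := by
    have hne' : (c : ℂ) * (-1 / z) + d ≠ 0 := by
      intro h0
      apply hne
      have : ((c : ℂ) * (-1 / z) + d) * z = 0 := by rw [h0, zero_mul]
      field_simp at this
      push_cast
      linear_combination this
    rw [div_eq_div_iff hne' hne]
    push_cast
    field_simp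
    ring
  rw [← e1, h1, et_S hz, chi_congr (phi_S hdet), chi_add]
  push_cast
  field_simp
  ring

lemma good_T {a b c d : ℤ} (h : Good a b c d) : Good a (a + b) c (c + d) := by
  obtain ⟨hdet, h⟩ := h
  refine ⟨by linarith, fun z hz => ?_⟩
  have h1 := h (z + 1) (by simpa using hz)
  have e1 : ((a : ℂ) * (z + 1) + b) / ((c : ℂ) * (z + 1) + d)
      = ((a : ℂ) * z + ((a + b : ℤ) : ℂ)) / ((c : ℂ) * z + ((c + d : ℤ) : ℂ)) := by
    push_cast
    congr 1 <;> ring
  rw [← e1, h1, et_T, chi_congr (phi_T hdet), chi_add]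
  push_cast
  ring

lemma good_T_inv {a b c d : ℤ} (h : Good a b c d) : Good a (b - a) c (d - c) := by
  obtain ⟨hdet, h⟩ := h
  have hdet' : a * (d - c) - (b - a) * c = 1 := by linarith
  refine ⟨hdet', fun z hz => ?_⟩
  have h1 := h (z - 1) (by simpa using hz)
  have e1 : ((a : ℂ) * (z - 1) + b) / ((c : ℂ) * (z - 1) + d)
      = ((a : ℂ) * z + ((b - a : ℤ) : ℂ)) / ((c : ℂ) * z + ((d - c : ℤ) : ℂ)) := by
    push_cast
    congr 1 <;> ring
  have h2 : et (z - 1) ^ 2 = (chi 1)⁻¹ * et z ^ 2 := by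
    have := et_T (z - 1)
    rw [sub_add_cancel] at this
    rw [this]
    have := chi_ne_zero 1
    field_simp
  have h3 : chi (phi a b c d) = chi (phi a (b - a) c (d - c)) * chi 1 := by
    have h4 := phi_T hdet'
    rw [show a + (b - a) = b by ring, show c + (d - c) = d by ring] at h4
    rw [chi_congr h4, chi_add]
  rw [← e1, h1, h2, h3]
  have := chi_ne_zero 1
  push_cast
  field_simp
  ring

lemma good_all (g : SL(2, ℤ)) : Good (g 0 0) (g 0 1) (g 1 0) (g 1 1) := by
  have hg : g ∈ Subgroup.closure ({ModularGroup.S, ModularGroup.T} : Set SL(2, ℤ)) := by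
    rw [SpecialLinearGroup.SL2Z_generators]
    trivial
  induction hg using Subgroup.closure_induction_right with
  | one => simpa using good_one
  | mul_right x _ y hy ih =>
    rcases hy with rfl | rfl
    · have := good_S ih
      have e : ((x * ModularGroup.S : SL(2, ℤ)) : Matrix (Fin 2) (Fin 2) ℤ)
          = !![x 0 1, -x 0 0; x 1 1, -x 1 0] := by
        rw [Matrix.SpecialLinearGroup.coe_mul, ModularGroup.coe_S]
        ext i j
        fin_cases i <;> fin_cases j <;> simp [Matrix.mul_apply, Fin.sum_univ_two]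
      rw [e]
      simpa using this
    · have := good_T ih
      have e : ((x * ModularGroup.T : SL(2, ℤ)) : Matrix (Fin 2) (Fin 2) ℤ)
          = !![x 0 0, x 0 0 + x 0 1; x 1 0, x 1 0 + x 1 1] := by
        rw [Matrix.SpecialLinearGroup.coe_mul, ModularGroup.coe_T]
        ext i j
        fin_cases i <;> fin_cases j <;> simp [Matrix.mul_apply, Fin.sum_univ_two]
      rw [e]
      simpa using this
  | mul_inv_cancel x _ y hy ih =>
    rcases hy with rfl | rfl
    · have := good_S (good_S (good_S ih))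
      have e : ((x * ModularGroup.S⁻¹ : SL(2, ℤ)) : Matrix (Fin 2) (Fin 2) ℤ)
          = !![-x 0 1, x 0 0; -x 1 1, x 1 0] := by
        rw [Matrix.SpecialLinearGroup.coe_mul, Matrix.SpecialLinearGroup.coe_inv,
          ModularGroup.coe_S, Matrix.adjugate_fin_two]
        ext i j
        fin_cases i <;> fin_cases j <;> simp [Matrix.mul_apply, Fin.sum_univ_two]
      rw [e]
      simpa using this
    · have := good_T_inv ih
      have e : ((x * ModularGroup.T⁻¹ : SL(2, ℤ)) : Matrix (Fin 2) (Fin 2) ℤ)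
          = !![x 0 0, x 0 1 - x 0 0; x 1 0, x 1 1 - x 1 0] := by
        rw [Matrix.SpecialLinearGroup.coe_mul, Matrix.SpecialLinearGroup.coe_inv,
          ModularGroup.coe_T, Matrix.adjugate_fin_two]
        ext i j
        fin_cases i <;> fin_cases j <;> simp [Matrix.mul_apply, Fin.sum_univ_two] <;> ring
      rw [e]
      simpa using this

end EtaAux

open EtaAux in
/-- Module ETA. -/
theorem eta : EtaStmt := by
  intro a b c d hdet z hz
  let g : SL(2, ℤ) := ⟨!![a, b; c, d], by rw [Matrix.det_fin_two_of]; exact hdet⟩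
  have := (good_all g).2 z hz
  simpa [g, chi] using this

end Pool.Agent.H85.Pi
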