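/-
Common part of the modules INV26, INVD, INVP of project PI (MP_e49510_nt): the square of the eta
function at `k W z` for matrices `W` of Atkin-Lehner type.
-/
import Pool.Agent.H85.Pi.ETA

set_option autoImplicit false

namespace Pool.Agent.H85.Pi

open Complex Pool.Agent.H22.Pi
open scoped Real

namespace InvAux

open EtaAux

lemma et_ne {z : ℂ} (hz : 0 < z.im) : et z ≠ 0 := ModularForm.eta_ne_zero hz

lemma im_nat_mul {k : ℕ} (hk : 0 < k) {z : ℂ} (hz : 0 < z.im) : 0 < ((k : ℂ) * z).im := by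
  have : ((k : ℂ) * z).im = (k : ℝ) * z.im := by simp
  rw [this]
  have : (0 : ℝ) < k := by exact_mod_cast hk
  positivity

lemma cd_ne {e : ℕ} {a b c d : ℤ} (hdet : e * a * d - b * c = 1) {z : ℂ} (hz : 0 < z.im) :
    (c : ℂ) * z + d ≠ 0 := by
  apply den_ne _ hz
  rintro ⟨rfl, rfl⟩
  simp at hdet

lemma Wact_eq (e : ℕ) (a b c d : ℤ) (z : ℂ) :
    Wact e a b c d z = ((e : ℂ) * a * z + b) / ((e : ℂ) * ((c : ℂ) * z + d)) := by
  unfold Wact
  congr 1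
  ring

/-- The point `W z` lies in the upper half plane. -/
lemma Wact_im {e : ℕ} (he : 0 < e) {a b c d : ℤ} (hdet : e * a * d - b * c = 1) {z : ℂ}
    (hz : 0 < z.im) : 0 < (Wact e a b c d z).im := by
  have hD := cd_ne hdet hz
  have he' : (e : ℂ) ≠ 0 := by exact_mod_cast he.ne'
  have hne : (e : ℂ) * ((c : ℂ) * z + d) ≠ 0 := mul_ne_zero he' hD
  have hn : 0 < normSq ((e : ℂ) * ((c : ℂ) * z + d)) := normSq_pos.mpr hne
  rw [Wact_eq, div_im]
  have hR : ((e : ℝ) * a * d - b * c) = 1 := by exact_mod_cast congrArg (Int.cast : ℤ → ℝ) hdet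
  have he0 : (0 : ℝ) < e := by exact_mod_cast he
  rw [← sub_div]
  apply div_pos _ hn
  have e1 : (((e : ℂ) * a * z + b).im * ((e : ℂ) * ((c : ℂ) * z + d)).re
      - ((e : ℂ) * a * z + b).re * ((e : ℂ) * ((c : ℂ) * z + d)).im)
      = (e : ℝ) * z.im * ((e : ℝ) * a * d - b * c) := by
    simp
    ring
  rw [e1, hR, mul_one]
  positivity

/-- The transformation of `eta^2` at `k W z`, `k = g k1`, `e = g e1`. -/
lemma et_W (k e g k1 e1 k' : ℕ) (hk : k = g * k1) (he : e = g * e1) (hk' : k' = k1 * e1)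
    (hg : 0 < g) (hk1 : 0 < k1) (he1 : 0 < e1) {a b c c1 d : ℤ} (hc : c = k1 * c1)
    (hdet : e * a * d - b * c = 1) {z : ℂ} (hz : 0 < z.im) :
    et ((k : ℂ) * Wact e a b c d z) ^ 2
      = chi (phi (g * a) (k1 * b) c1 (e1 * d)) * ((e1 : ℂ) * ((c : ℂ) * z + d))
        * et ((k' : ℂ) * z) ^ 2 := by
  subst hk he hk'
  have hD := cd_ne hdet hz
  subst hc
  have hdet' : ((g : ℤ) * a) * ((e1 : ℤ) * d) - ((k1 : ℤ) * b) * c1 = 1 := by
    push_cast at hdet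
    linear_combination hdet
  have hzk : 0 < (((k1 * e1 : ℕ) : ℂ) * z).im := im_nat_mul (Nat.mul_pos hk1 he1) hz
  have h := Pi.eta _ _ _ _ hdet' _ hzk
  have hg' : (g : ℂ) ≠ 0 := by exact_mod_cast hg.ne'
  have hk1' : (k1 : ℂ) ≠ 0 := by exact_mod_cast hk1.ne'
  have he1' : (e1 : ℂ) ≠ 0 := by exact_mod_cast he1.ne'
  push_cast at hD h ⊢
  have e1 : ((g : ℂ) * a * (k1 * e1 * z) + k1 * b) / ((c1 : ℂ) * (k1 * e1 * z) + e1 * d)
      = (g : ℂ) * k1 * Wact (g * e1) a b (k1 * c1) d z := by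
    rw [Wact_eq]
    push_cast
    have h1 : (c1 : ℂ) * (k1 * e1 * z) + e1 * d = e1 * ((k1 : ℂ) * c1 * z + d) := by ring
    rw [h1, mul_div_assoc', div_eq_div_iff (mul_ne_zero he1' hD)
      (mul_ne_zero (mul_ne_zero hg' he1') hD)]
    ring
  rw [← e1, h]
  unfold chi
  ring

/-- Characters agree for matrices congruent modulo `12`. -/
lemma chi_phi_congr {a b c d a' b' c' d' : ℤ} (ha : (12 : ℤ) ∣ a' - a) (hb : (12 : ℤ) ∣ b' - b)
    (hc : (12 : ℤ) ∣ c' - c) (hd : (12 : ℤ) ∣ d' - d) :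
    chi (phi a' b' c' d') = chi (phi a b c d) := by
  apply chi_congr
  have ha' : a' ≡ a [ZMOD 12] := (Int.modEq_iff_dvd.mpr ha).symm
  have hb' : b' ≡ b [ZMOD 12] := (Int.modEq_iff_dvd.mpr hb).symm
  have hc' : c' ≡ c [ZMOD 12] := (Int.modEq_iff_dvd.mpr hc).symm
  have hd' : d' ≡ d [ZMOD 12] := (Int.modEq_iff_dvd.mpr hd).symm
  have : phi a' b' c' d' ≡ phi a b c d [ZMOD 12] := by
    unfold phi
    gcongr
  exact Int.modEq_iff_dvd.mp this.symm

/-- `R = eta(z)^2 / eta(13 z)^2`. -/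
noncomputable def Rf (z : ℂ) : ℂ := et z ^ 2 / et (13 * z) ^ 2

lemma im_thirteen {z : ℂ} (hz : 0 < z.im) : 0 < ((13 : ℂ) * z).im := by
  have := im_nat_mul (k := 13) (by norm_num) hz
  simpa using this

lemma Rf_ne {z : ℂ} (hz : 0 < z.im) : Rf z ≠ 0 :=
  div_ne_zero (pow_ne_zero _ (et_ne hz)) (pow_ne_zero _ (et_ne (im_thirteen hz)))

lemma wf_eq (z : ℂ) : wf z = Rf z / Rf (2 * z) := by
  unfold wf Rf
  rw [show (13 : ℂ) * (2 * z) = 26 * z by ring, div_pow, mul_pow, mul_pow, div_div_div_eq]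
  ring

/-- The case `13 ∤ e`. -/
lemma Rf_W1 (m e g k1 e1 m' : ℕ) (hm : m = g * k1) (he : e = g * e1) (hm' : m' = k1 * e1)
    (hg : 0 < g) (hk1 : 0 < k1) (he1 : 0 < e1) {a b c d : ℤ} (hc : ((13 * k1 : ℕ) : ℤ) ∣ c)
    (hdet : e * a * d - b * c = 1) {z : ℂ} (hz : 0 < z.im) :
    Rf ((m : ℂ) * Wact e a b c d z) = Rf ((m' : ℂ) * z) := by
  obtain ⟨c', hc'⟩ := hc
  have h1 := et_W m e g k1 e1 m' hm he hm' hg hk1 he1 (c1 := 13 * c')
    (by rw [hc']; push_cast; ring) hdet hz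
  have h2 := et_W (13 * m) e g (13 * k1) e1 (13 * m') (by rw [hm]; ring) he (by rw [hm']; ring) hg
    (by positivity) he1 (c1 := c') hc' hdet hz
  have hchi : chi (phi (g * a) (k1 * b) (13 * c') (e1 * d))
      = chi (phi (g * a) ((13 * k1 : ℕ) * b) c' (e1 * d)) := by
    apply chi_phi_congr
    · exact ⟨0, by ring⟩
    · exact ⟨-(k1 * b), by push_cast; ring⟩
    · exact ⟨c', by ring⟩
    · exact ⟨0, by ring⟩
  have hx : (13 : ℂ) * ((m : ℂ) * Wact e a b c d z) = ((13 * m : ℕ) : ℂ) * Wact e a b c d z := by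
    push_cast; ring
  have hy : (13 : ℂ) * ((m' : ℂ) * z) = ((13 * m' : ℕ) : ℂ) * z := by
    push_cast; ring
  have hne : chi (phi (g * a) ((13 * k1 : ℕ) * b) c' (e1 * d)) * ((e1 : ℂ) * ((c : ℂ) * z + d)) ≠ 0 :=
    mul_ne_zero (chi_ne_zero _) (mul_ne_zero (by exact_mod_cast he1.ne') (cd_ne hdet hz))
  unfold Rf
  rw [hx, hy, h1, h2, hchi, mul_div_mul_left _ _ hne]

/-- The case `13 ∣ e`. -/
lemma Rf_W2 (m e g k1 e1 m' : ℕ) (hm : m = g * k1) (he : e = 13 * (g * e1)) (hm' : m' = k1 * e1)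
    (hg : 0 < g) (hk1 : 0 < k1) (he1 : 0 < e1) {a b c d : ℤ} (hc : ((k1 : ℕ) : ℤ) ∣ c)
    (hdet : e * a * d - b * c = 1) {z : ℂ} (hz : 0 < z.im) :
    Rf ((m : ℂ) * Wact e a b c d z) = 13 / Rf ((m' : ℂ) * z) := by
  obtain ⟨c', hc'⟩ := hc
  have h1 := et_W m e g k1 (13 * e1) (13 * m') hm (by rw [he]; ring) (by rw [hm']; ring) hg hk1
    (by positivity) (c1 := c') hc' hdet hz
  have h2 := et_W (13 * m) e (13 * g) k1 e1 m' (by rw [hm]; ring) (by rw [he]; ring) hm'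
    (by positivity) hk1 he1 (c1 := c') hc' hdet hz
  have hchi : chi (phi (g * a) (k1 * b) c' ((13 * e1 : ℕ) * d))
      = chi (phi ((13 * g : ℕ) * a) (k1 * b) c' (e1 * d)) := by
    apply chi_phi_congr
    · exact ⟨-(g * a), by push_cast; ring⟩
    · exact ⟨0, by ring⟩
    · exact ⟨0, by ring⟩
    · exact ⟨e1 * d, by push_cast; ring⟩
  have hx : (13 : ℂ) * ((m : ℂ) * Wact e a b c d z) = ((13 * m : ℕ) : ℂ) * Wact e a b c d z := by
    push_cast; ring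
  have hy : (13 : ℂ) * ((m' : ℂ) * z) = ((13 * m' : ℕ) : ℂ) * z := by
    push_cast; ring
  have hm0 : 0 < m' := by rw [hm']; positivity
  have hz1 : et ((m' : ℂ) * z) ≠ 0 := et_ne (im_nat_mul hm0 hz)
  have hz2 : et (((13 * m' : ℕ) : ℂ) * z) ≠ 0 := et_ne (im_nat_mul (by positivity) hz)
  have hch := chi_ne_zero (phi ((13 * g : ℕ) * a) (k1 * b) c' (e1 * d))
  have hD := cd_ne hdet hz
  have he1' : (e1 : ℂ) ≠ 0 := by exact_mod_cast he1.ne'
  unfold Rf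
  rw [hx, hy, h1, h2, hchi]
  push_cast at hz2 hch ⊢
  field_simp

end InvAux

end Pool.Agent.H85.Pi
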