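/-
Module INV26 of project PI (MP_e49510_nt): the function `w` under the Atkin-Lehner type matrices
of level 26.
-/
import Pool.Agent.H85.Pi.InvAux

set_option autoImplicit false

namespace Pool.Agent.H85.Pi

open Complex Pool.Agent.H22.Pi
open scoped Real

namespace InvAux

lemma im_two {z : ℂ} (hz : 0 < z.im) : 0 < ((2 : ℂ) * z).im := by
  have := im_nat_mul (k := 2) (by norm_num) hz
  simpa using this

lemma wf_W1 {a b c d : ℤ} (hc : (26 : ℤ) ∣ (1 : ℕ) * c) (hdet : (1 : ℕ) * a * d - b * c = 1)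
    {z : ℂ} (hz : 0 < z.im) : wf (Wact 1 a b c d z) = wf z := by
  have hc' : (26 : ℤ) ∣ c := by push_cast at hc; simpa using hc
  have h1 := Rf_W1 1 1 1 1 1 1 rfl rfl rfl one_pos one_pos one_pos
    (c := c) (by push_cast; omega) hdet hz
  have h2 := Rf_W1 2 1 1 2 1 2 rfl rfl rfl one_pos two_pos one_pos
    (c := c) (by push_cast; omega) hdet hz
  push_cast at h1 h2
  simp only [one_mul] at h1 h2
  rw [wf_eq, wf_eq, h1, h2]

lemma wf_W2 {a b c d : ℤ} (hc : (26 : ℤ) ∣ (2 : ℕ) * c) (hdet : (2 : ℕ) * a * d - b * c = 1)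
    {z : ℂ} (hz : 0 < z.im) : wf (Wact 2 a b c d z) = (wf z)⁻¹ := by
  have hc' : (13 : ℤ) ∣ c := by push_cast at hc; omega
  have h1 := Rf_W1 1 2 1 1 2 2 rfl rfl rfl one_pos one_pos two_pos
    (c := c) (by push_cast; omega) hdet hz
  have h2 := Rf_W1 2 2 2 1 1 1 rfl rfl rfl two_pos one_pos one_pos
    (c := c) (by push_cast; omega) hdet hz
  push_cast at h1 h2
  simp only [one_mul] at h1 h2
  rw [wf_eq, wf_eq, h1, h2, inv_div]

lemma wf_W13 {a b c d : ℤ} (hdet : (13 : ℕ) * a * d - b * c = 1) (hc : (26 : ℤ) ∣ (13 : ℕ) * c)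
    {z : ℂ} (hz : 0 < z.im) : wf (Wact 13 a b c d z) = (wf z)⁻¹ := by
  have hc' : (2 : ℤ) ∣ c := by push_cast at hc; omega
  have h1 := Rf_W2 1 13 1 1 1 1 rfl rfl rfl one_pos one_pos one_pos
    (c := c) (by push_cast; omega) hdet hz
  have h2 := Rf_W2 2 13 1 2 1 2 rfl rfl rfl one_pos two_pos one_pos
    (c := c) (by push_cast; omega) hdet hz
  push_cast at h1 h2
  simp only [one_mul] at h1 h2
  have n1 := Rf_ne hz
  have n2 := Rf_ne (im_two hz)
  rw [wf_eq, wf_eq, h1, h2]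
  field_simp

lemma wf_W26 {a b c d : ℤ} (hdet : (26 : ℕ) * a * d - b * c = 1)
    {z : ℂ} (hz : 0 < z.im) : wf (Wact 26 a b c d z) = wf z := by
  have h1 := Rf_W2 1 26 1 1 2 2 rfl rfl rfl one_pos one_pos two_pos
    (c := c) (by push_cast; omega) hdet hz
  have h2 := Rf_W2 2 26 2 1 1 1 rfl rfl rfl two_pos one_pos one_pos
    (c := c) (by push_cast; omega) hdet hz
  push_cast at h1 h2
  simp only [one_mul] at h1 h2
  have n1 := Rf_ne hz
  have n2 := Rf_ne (im_two hz)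
  rw [wf_eq, wf_eq, h1, h2]
  field_simp

lemma dvd26 {e : ℕ} (h : e ∣ 26) : e = 1 ∨ e = 2 ∨ e = 13 ∨ e = 26 := by
  have : e ∈ Nat.divisors 26 := Nat.mem_divisors.mpr ⟨h, by norm_num⟩
  have h2 : Nat.divisors 26 = {1, 2, 13, 26} := by decide
  rw [h2] at this
  simpa using this

end InvAux

open InvAux in
/-- Module INV26. -/
theorem inv26 : Inv26Stmt := by
  intro e a b c d he hc hdet z hz
  refine ⟨Wact_im (Nat.pos_of_dvd_of_pos he (by norm_num)) hdet hz, ?_, ?_⟩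
  · rintro (rfl | rfl)
    · exact wf_W1 hc hdet hz
    · exact wf_W26 hdet hz
  · rintro (rfl | rfl)
    · exact wf_W2 hc hdet hz
    · exact wf_W13 hdet hc hz

end Pool.Agent.H85.Pi
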