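/-
Module INVD of project PI (MP_e49510_nt): the product of four discriminants under the
Atkin-Lehner type matrices of level 26.
-/
import Pool.Agent.H85.Pi.INV26

set_option autoImplicit false

namespace Pool.Agent.H85.Pi

open Complex Pool.Agent.H22.Pi
open scoped Real

namespace InvAux

open EtaAux

lemma et_W24 (k e g k1 e1 k' : ℕ) (hk : k = g * k1) (he : e = g * e1) (hk' : k' = k1 * e1)
    (hg : 0 < g) (hk1 : 0 < k1) (he1 : 0 < e1) {a b c d : ℤ} (hc : (k1 : ℤ) ∣ c)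
    (hdet : e * a * d - b * c = 1) {z : ℂ} (hz : 0 < z.im) :
    et ((k : ℂ) * Wact e a b c d z) ^ 24
      = ((e1 : ℂ) * ((c : ℂ) * z + d)) ^ 12 * et ((k' : ℂ) * z) ^ 24 := by
  obtain ⟨c1, hc1⟩ := hc
  have h := et_W k e g k1 e1 k' hk he hk' hg hk1 he1 hc1 hdet hz
  calc et ((k : ℂ) * Wact e a b c d z) ^ 24
      = (et ((k : ℂ) * Wact e a b c d z) ^ 2) ^ 12 := by ring
    _ = (chi (phi (g * a) (k1 * b) c1 (e1 * d))) ^ 12 * ((e1 : ℂ) * ((c : ℂ) * z + d)) ^ 12
        * et ((k' : ℂ) * z) ^ 24 := by rw [h]; ring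
    _ = _ := by rw [chi_pow_twelve, one_mul]

lemma etp_comb {e : ℕ} (x y u v : ℂ) (D : ℂ)
    (X Y U V : ℂ) (p q r s : ℂ) (hpqrs : p * q * r * s = (e : ℂ) ^ 2)
    (h1 : x ^ 24 = (p * D) ^ 12 * X ^ 24) (h2 : y ^ 24 = (q * D) ^ 12 * Y ^ 24)
    (h3 : u ^ 24 = (r * D) ^ 12 * U ^ 24) (h4 : v ^ 24 = (s * D) ^ 12 * V ^ 24) :
    (x * y * u * v) ^ 24 = ((e : ℂ) * D ^ 2) ^ 24 * (X * Y * U * V) ^ 24 := by
  have : (x * y * u * v) ^ 24 = (p * q * r * s) ^ 12 * D ^ 48 * (X * Y * U * V) ^ 24 := by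
    calc (x * y * u * v) ^ 24 = x ^ 24 * y ^ 24 * u ^ 24 * v ^ 24 := by ring
      _ = _ := by rw [h1, h2, h3, h4]; ring
  rw [this, hpqrs]
  ring

lemma etp_rhs {e : ℕ} (he : 0 < e) (c d : ℤ) (z : ℂ) :
    (((e : ℂ) * c * z + (e : ℂ) * d) ^ 2 / e) = (e : ℂ) * ((c : ℂ) * z + d) ^ 2 := by
  have he' : (e : ℂ) ≠ 0 := by exact_mod_cast he.ne'
  field_simp

end InvAux

open InvAux in
/-- Module INVD. -/
theorem invd : InvDStmt := by
  intro e a b c d he hc hdet z hz
  rw [etp_rhs (Nat.pos_of_dvd_of_pos he (by norm_num))]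
  have e1 : ∀ w : ℂ, etp w = et ((1 : ℕ) * w) * et ((2 : ℕ) * w) * et ((13 : ℕ) * w)
      * et ((26 : ℕ) * w) := by
    intro w
    unfold etp
    push_cast
    rw [one_mul]
  rw [e1, e1]
  rcases dvd26 he with rfl | rfl | rfl | rfl
  · have hc' : (26 : ℤ) ∣ c := by push_cast at hc; simpa using hc
    have h1 := et_W24 1 1 1 1 1 1 rfl rfl rfl one_pos one_pos one_pos
      (c := c) (by push_cast; omega) hdet hz
    have h2 := et_W24 2 1 1 2 1 2 rfl rfl rfl one_pos two_pos one_pos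
      (c := c) (by push_cast; omega) hdet hz
    have h3 := et_W24 13 1 1 13 1 13 rfl rfl rfl one_pos (by norm_num) one_pos
      (c := c) (by push_cast; omega) hdet hz
    have h4 := et_W24 26 1 1 26 1 26 rfl rfl rfl one_pos (by norm_num) one_pos
      (c := c) (by push_cast; omega) hdet hz
    exact etp_comb (e := 1) _ _ _ _ _ _ _ _ _ _ _ _ _ (by norm_num) h1 h2 h3 h4
  · have hc' : (13 : ℤ) ∣ c := by push_cast at hc; omega
    have h1 := et_W24 1 2 1 1 2 2 rfl rfl rfl one_pos one_pos two_pos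
      (c := c) (by push_cast; omega) hdet hz
    have h2 := et_W24 2 2 2 1 1 1 rfl rfl rfl two_pos one_pos one_pos
      (c := c) (by push_cast; omega) hdet hz
    have h3 := et_W24 13 2 1 13 2 26 rfl rfl rfl one_pos (by norm_num) two_pos
      (c := c) (by push_cast; omega) hdet hz
    have h4 := et_W24 26 2 2 13 1 13 rfl rfl rfl two_pos (by norm_num) one_pos
      (c := c) (by push_cast; omega) hdet hz
    rw [etp_comb (e := 2) _ _ _ _ _ _ _ _ _ _ _ _ _ (by norm_num) h1 h2 h3 h4]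
    ring
  · have hc' : (2 : ℤ) ∣ c := by push_cast at hc; omega
    have h1 := et_W24 1 13 1 1 13 13 rfl rfl rfl one_pos one_pos (by norm_num)
      (c := c) (by push_cast; omega) hdet hz
    have h2 := et_W24 2 13 1 2 13 26 rfl rfl rfl one_pos two_pos (by norm_num)
      (c := c) (by push_cast; omega) hdet hz
    have h3 := et_W24 13 13 13 1 1 1 rfl rfl rfl (by norm_num) one_pos one_pos
      (c := c) (by push_cast; omega) hdet hz
    have h4 := et_W24 26 13 13 2 1 2 rfl rfl rfl (by norm_num) two_pos one_pos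
      (c := c) (by push_cast; omega) hdet hz
    rw [etp_comb (e := 13) _ _ _ _ _ _ _ _ _ _ _ _ _ (by norm_num) h1 h2 h3 h4]
    ring
  · have h1 := et_W24 1 26 1 1 26 26 rfl rfl rfl one_pos one_pos (by norm_num)
      (c := c) (by push_cast; omega) hdet hz
    have h2 := et_W24 2 26 2 1 13 13 rfl rfl rfl two_pos one_pos (by norm_num)
      (c := c) (by push_cast; omega) hdet hz
    have h3 := et_W24 13 26 13 1 2 2 rfl rfl rfl (by norm_num) one_pos two_pos
      (c := c) (by push_cast; omega) hdet hz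
    have h4 := et_W24 26 26 26 1 1 1 rfl rfl rfl (by norm_num) one_pos one_pos
      (c := c) (by push_cast; omega) hdet hz
    rw [etp_comb (e := 26) _ _ _ _ _ _ _ _ _ _ _ _ _ (by norm_num) h1 h2 h3 h4]
    ring

end Pool.Agent.H85.Pi
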