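/-
Module INVP of project PI (MP_e49510_nt): the functions `w(z)` and `w(pz)` under the Atkin-Lehner
type matrices of level `26 p`, `p = 3, 5`.
-/
import Pool.Agent.H85.Pi.INV26

set_option autoImplicit false

namespace Pool.Agent.H85.Pi

open Complex Pool.Agent.H22.Pi
open scoped Real

namespace InvAux

lemma wfp3_1 {a b c d : ℤ} (hc : ((26 * 3 : ℕ) : ℤ) ∣ (1 : ℕ) * c)
    (hdet : (1 : ℕ) * a * d - b * c = 1) {z : ℂ} (hz : 0 < z.im) :
    wf (Wact 1 a b c d z) = wf z ∧ wf (3 * Wact 1 a b c d z) = wf (3 * z) := by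
  have hc' : (78 : ℤ) ∣ c := by push_cast at hc; omega
  have h1 := Rf_W1 1 1 1 1 1 1 rfl rfl rfl (by norm_num) (by norm_num) (by norm_num)
    (c := c) (by push_cast; omega) hdet hz
  have h2 := Rf_W1 2 1 1 2 1 2 rfl rfl rfl (by norm_num) (by norm_num) (by norm_num)
    (c := c) (by push_cast; omega) hdet hz
  have h3 := Rf_W1 3 1 1 3 1 3 rfl rfl rfl (by norm_num) (by norm_num) (by norm_num)
    (c := c) (by push_cast; omega) hdet hz
  have h6 := Rf_W1 6 1 1 6 1 6 rfl rfl rfl (by norm_num) (by norm_num) (by norm_num)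
    (c := c) (by push_cast; omega) hdet hz
  push_cast at h1 h2 h3 h6
  simp only [one_mul] at h1 h2 h3 h6
  have n1 := Rf_ne hz
  have n2 := Rf_ne (im_nat_mul (k := 2) (by norm_num) hz)
  have n3 := Rf_ne (im_nat_mul (k := 3) (by norm_num) hz)
  have n6 := Rf_ne (im_nat_mul (k := 6) (by norm_num) hz)
  push_cast at n2 n3 n6
  have q1 : (2 : ℂ) * (3 * Wact 1 a b c d z) = 6 * Wact 1 a b c d z := by ring
  have q2 : (2 : ℂ) * (3 * z) = 6 * z := by ring
  rw [wf_eq, wf_eq, wf_eq, wf_eq, q1, q2, h1, h2, h3, h6]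
  constructor <;> field_simp

lemma wfp3_2 {a b c d : ℤ} (hc : ((26 * 3 : ℕ) : ℤ) ∣ (2 : ℕ) * c)
    (hdet : (2 : ℕ) * a * d - b * c = 1) {z : ℂ} (hz : 0 < z.im) :
    wf (Wact 2 a b c d z) = (wf z)⁻¹ ∧ wf (3 * Wact 2 a b c d z) = (wf (3 * z))⁻¹ := by
  have hc' : (39 : ℤ) ∣ c := by push_cast at hc; omega
  have h1 := Rf_W1 1 2 1 1 2 2 rfl rfl rfl (by norm_num) (by norm_num) (by norm_num)
    (c := c) (by push_cast; omega) hdet hz
  have h2 := Rf_W1 2 2 2 1 1 1 rfl rfl rfl (by norm_num) (by norm_num) (by norm_num)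
    (c := c) (by push_cast; omega) hdet hz
  have h3 := Rf_W1 3 2 1 3 2 6 rfl rfl rfl (by norm_num) (by norm_num) (by norm_num)
    (c := c) (by push_cast; omega) hdet hz
  have h6 := Rf_W1 6 2 2 3 1 3 rfl rfl rfl (by norm_num) (by norm_num) (by norm_num)
    (c := c) (by push_cast; omega) hdet hz
  push_cast at h1 h2 h3 h6
  simp only [one_mul] at h1 h2 h3 h6
  have n1 := Rf_ne hz
  have n2 := Rf_ne (im_nat_mul (k := 2) (by norm_num) hz)
  have n3 := Rf_ne (im_nat_mul (k := 3) (by norm_num) hz)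
  have n6 := Rf_ne (im_nat_mul (k := 6) (by norm_num) hz)
  push_cast at n2 n3 n6
  have q1 : (2 : ℂ) * (3 * Wact 2 a b c d z) = 6 * Wact 2 a b c d z := by ring
  have q2 : (2 : ℂ) * (3 * z) = 6 * z := by ring
  rw [wf_eq, wf_eq, wf_eq, wf_eq, q1, q2, h1, h2, h3, h6]
  constructor <;> field_simp

lemma wfp3_3 {a b c d : ℤ} (hc : ((26 * 3 : ℕ) : ℤ) ∣ (3 : ℕ) * c)
    (hdet : (3 : ℕ) * a * d - b * c = 1) {z : ℂ} (hz : 0 < z.im) :
    wf (Wact 3 a b c d z) = wf (3 * z) ∧ wf (3 * Wact 3 a b c d z) = wf z := by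
  have hc' : (26 : ℤ) ∣ c := by push_cast at hc; omega
  have h1 := Rf_W1 1 3 1 1 3 3 rfl rfl rfl (by norm_num) (by norm_num) (by norm_num)
    (c := c) (by push_cast; omega) hdet hz
  have h2 := Rf_W1 2 3 1 2 3 6 rfl rfl rfl (by norm_num) (by norm_num) (by norm_num)
    (c := c) (by push_cast; omega) hdet hz
  have h3 := Rf_W1 3 3 3 1 1 1 rfl rfl rfl (by norm_num) (by norm_num) (by norm_num)
    (c := c) (by push_cast; omega) hdet hz
  have h6 := Rf_W1 6 3 3 2 1 2 rfl rfl rfl (by norm_num) (by norm_num) (by norm_num)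
    (c := c) (by push_cast; omega) hdet hz
  push_cast at h1 h2 h3 h6
  simp only [one_mul] at h1 h2 h3 h6
  have n1 := Rf_ne hz
  have n2 := Rf_ne (im_nat_mul (k := 2) (by norm_num) hz)
  have n3 := Rf_ne (im_nat_mul (k := 3) (by norm_num) hz)
  have n6 := Rf_ne (im_nat_mul (k := 6) (by norm_num) hz)
  push_cast at n2 n3 n6
  have q1 : (2 : ℂ) * (3 * Wact 3 a b c d z) = 6 * Wact 3 a b c d z := by ring
  have q2 : (2 : ℂ) * (3 * z) = 6 * z := by ring
  rw [wf_eq, wf_eq, wf_eq, wf_eq, q1, q2, h1, h2, h3, h6]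
  constructor <;> field_simp

lemma wfp3_6 {a b c d : ℤ} (hc : ((26 * 3 : ℕ) : ℤ) ∣ (6 : ℕ) * c)
    (hdet : (6 : ℕ) * a * d - b * c = 1) {z : ℂ} (hz : 0 < z.im) :
    wf (Wact 6 a b c d z) = (wf (3 * z))⁻¹ ∧ wf (3 * Wact 6 a b c d z) = (wf z)⁻¹ := by
  have hc' : (13 : ℤ) ∣ c := by push_cast at hc; omega
  have h1 := Rf_W1 1 6 1 1 6 6 rfl rfl rfl (by norm_num) (by norm_num) (by norm_num)
    (c := c) (by push_cast; omega) hdet hz
  have h2 := Rf_W1 2 6 2 1 3 3 rfl rfl rfl (by norm_num) (by norm_num) (by norm_num)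
    (c := c) (by push_cast; omega) hdet hz
  have h3 := Rf_W1 3 6 3 1 2 2 rfl rfl rfl (by norm_num) (by norm_num) (by norm_num)
    (c := c) (by push_cast; omega) hdet hz
  have h6 := Rf_W1 6 6 6 1 1 1 rfl rfl rfl (by norm_num) (by norm_num) (by norm_num)
    (c := c) (by push_cast; omega) hdet hz
  push_cast at h1 h2 h3 h6
  simp only [one_mul] at h1 h2 h3 h6
  have n1 := Rf_ne hz
  have n2 := Rf_ne (im_nat_mul (k := 2) (by norm_num) hz)
  have n3 := Rf_ne (im_nat_mul (k := 3) (by norm_num) hz)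
  have n6 := Rf_ne (im_nat_mul (k := 6) (by norm_num) hz)
  push_cast at n2 n3 n6
  have q1 : (2 : ℂ) * (3 * Wact 6 a b c d z) = 6 * Wact 6 a b c d z := by ring
  have q2 : (2 : ℂ) * (3 * z) = 6 * z := by ring
  rw [wf_eq, wf_eq, wf_eq, wf_eq, q1, q2, h1, h2, h3, h6]
  constructor <;> field_simp

lemma wfp3_13 {a b c d : ℤ} (hc : ((26 * 3 : ℕ) : ℤ) ∣ (13 : ℕ) * c)
    (hdet : (13 : ℕ) * a * d - b * c = 1) {z : ℂ} (hz : 0 < z.im) :
    wf (Wact 13 a b c d z) = (wf z)⁻¹ ∧ wf (3 * Wact 13 a b c d z) = (wf (3 * z))⁻¹ := by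
  have hc' : (6 : ℤ) ∣ c := by push_cast at hc; omega
  have h1 := Rf_W2 1 13 1 1 1 1 rfl rfl rfl (by norm_num) (by norm_num) (by norm_num)
    (c := c) (by push_cast; omega) hdet hz
  have h2 := Rf_W2 2 13 1 2 1 2 rfl rfl rfl (by norm_num) (by norm_num) (by norm_num)
    (c := c) (by push_cast; omega) hdet hz
  have h3 := Rf_W2 3 13 1 3 1 3 rfl rfl rfl (by norm_num) (by norm_num) (by norm_num)
    (c := c) (by push_cast; omega) hdet hz
  have h6 := Rf_W2 6 13 1 6 1 6 rfl rfl rfl (by norm_num) (by norm_num) (by norm_num)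
    (c := c) (by push_cast; omega) hdet hz
  push_cast at h1 h2 h3 h6
  simp only [one_mul] at h1 h2 h3 h6
  have n1 := Rf_ne hz
  have n2 := Rf_ne (im_nat_mul (k := 2) (by norm_num) hz)
  have n3 := Rf_ne (im_nat_mul (k := 3) (by norm_num) hz)
  have n6 := Rf_ne (im_nat_mul (k := 6) (by norm_num) hz)
  push_cast at n2 n3 n6
  have q1 : (2 : ℂ) * (3 * Wact 13 a b c d z) = 6 * Wact 13 a b c d z := by ring
  have q2 : (2 : ℂ) * (3 * z) = 6 * z := by ring
  rw [wf_eq, wf_eq, wf_eq, wf_eq, q1, q2, h1, h2, h3, h6]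
  constructor <;> field_simp

lemma wfp3_26 {a b c d : ℤ} (hc : ((26 * 3 : ℕ) : ℤ) ∣ (26 : ℕ) * c)
    (hdet : (26 : ℕ) * a * d - b * c = 1) {z : ℂ} (hz : 0 < z.im) :
    wf (Wact 26 a b c d z) = wf z ∧ wf (3 * Wact 26 a b c d z) = wf (3 * z) := by
  have hc' : (3 : ℤ) ∣ c := by push_cast at hc; omega
  have h1 := Rf_W2 1 26 1 1 2 2 rfl rfl rfl (by norm_num) (by norm_num) (by norm_num)
    (c := c) (by push_cast; omega) hdet hz
  have h2 := Rf_W2 2 26 2 1 1 1 rfl rfl rfl (by norm_num) (by norm_num) (by norm_num)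
    (c := c) (by push_cast; omega) hdet hz
  have h3 := Rf_W2 3 26 1 3 2 6 rfl rfl rfl (by norm_num) (by norm_num) (by norm_num)
    (c := c) (by push_cast; omega) hdet hz
  have h6 := Rf_W2 6 26 2 3 1 3 rfl rfl rfl (by norm_num) (by norm_num) (by norm_num)
    (c := c) (by push_cast; omega) hdet hz
  push_cast at h1 h2 h3 h6
  simp only [one_mul] at h1 h2 h3 h6
  have n1 := Rf_ne hz
  have n2 := Rf_ne (im_nat_mul (k := 2) (by norm_num) hz)
  have n3 := Rf_ne (im_nat_mul (k := 3) (by norm_num) hz)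
  have n6 := Rf_ne (im_nat_mul (k := 6) (by norm_num) hz)
  push_cast at n2 n3 n6
  have q1 : (2 : ℂ) * (3 * Wact 26 a b c d z) = 6 * Wact 26 a b c d z := by ring
  have q2 : (2 : ℂ) * (3 * z) = 6 * z := by ring
  rw [wf_eq, wf_eq, wf_eq, wf_eq, q1, q2, h1, h2, h3, h6]
  constructor <;> field_simp

lemma wfp3_39 {a b c d : ℤ} (hc : ((26 * 3 : ℕ) : ℤ) ∣ (39 : ℕ) * c)
    (hdet : (39 : ℕ) * a * d - b * c = 1) {z : ℂ} (hz : 0 < z.im) :
    wf (Wact 39 a b c d z) = (wf (3 * z))⁻¹ ∧ wf (3 * Wact 39 a b c d z) = (wf z)⁻¹ := by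
  have hc' : (2 : ℤ) ∣ c := by push_cast at hc; omega
  have h1 := Rf_W2 1 39 1 1 3 3 rfl rfl rfl (by norm_num) (by norm_num) (by norm_num)
    (c := c) (by push_cast; omega) hdet hz
  have h2 := Rf_W2 2 39 1 2 3 6 rfl rfl rfl (by norm_num) (by norm_num) (by norm_num)
    (c := c) (by push_cast; omega) hdet hz
  have h3 := Rf_W2 3 39 3 1 1 1 rfl rfl rfl (by norm_num) (by norm_num) (by norm_num)
    (c := c) (by push_cast; omega) hdet hz
  have h6 := Rf_W2 6 39 3 2 1 2 rfl rfl rfl (by norm_num) (by norm_num) (by norm_num)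
    (c := c) (by push_cast; omega) hdet hz
  push_cast at h1 h2 h3 h6
  simp only [one_mul] at h1 h2 h3 h6
  have n1 := Rf_ne hz
  have n2 := Rf_ne (im_nat_mul (k := 2) (by norm_num) hz)
  have n3 := Rf_ne (im_nat_mul (k := 3) (by norm_num) hz)
  have n6 := Rf_ne (im_nat_mul (k := 6) (by norm_num) hz)
  push_cast at n2 n3 n6
  have q1 : (2 : ℂ) * (3 * Wact 39 a b c d z) = 6 * Wact 39 a b c d z := by ring
  have q2 : (2 : ℂ) * (3 * z) = 6 * z := by ring
  rw [wf_eq, wf_eq, wf_eq, wf_eq, q1, q2, h1, h2, h3, h6]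
  constructor <;> field_simp

lemma wfp3_78 {a b c d : ℤ} (hc : ((26 * 3 : ℕ) : ℤ) ∣ (78 : ℕ) * c)
    (hdet : (78 : ℕ) * a * d - b * c = 1) {z : ℂ} (hz : 0 < z.im) :
    wf (Wact 78 a b c d z) = wf (3 * z) ∧ wf (3 * Wact 78 a b c d z) = wf z := by
  have hc' : (1 : ℤ) ∣ c := by push_cast at hc; omega
  have h1 := Rf_W2 1 78 1 1 6 6 rfl rfl rfl (by norm_num) (by norm_num) (by norm_num)
    (c := c) (by push_cast; omega) hdet hz
  have h2 := Rf_W2 2 78 2 1 3 3 rfl rfl rfl (by norm_num) (by norm_num) (by norm_num)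
    (c := c) (by push_cast; omega) hdet hz
  have h3 := Rf_W2 3 78 3 1 2 2 rfl rfl rfl (by norm_num) (by norm_num) (by norm_num)
    (c := c) (by push_cast; omega) hdet hz
  have h6 := Rf_W2 6 78 6 1 1 1 rfl rfl rfl (by norm_num) (by norm_num) (by norm_num)
    (c := c) (by push_cast; omega) hdet hz
  push_cast at h1 h2 h3 h6
  simp only [one_mul] at h1 h2 h3 h6
  have n1 := Rf_ne hz
  have n2 := Rf_ne (im_nat_mul (k := 2) (by norm_num) hz)
  have n3 := Rf_ne (im_nat_mul (k := 3) (by norm_num) hz)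
  have n6 := Rf_ne (im_nat_mul (k := 6) (by norm_num) hz)
  push_cast at n2 n3 n6
  have q1 : (2 : ℂ) * (3 * Wact 78 a b c d z) = 6 * Wact 78 a b c d z := by ring
  have q2 : (2 : ℂ) * (3 * z) = 6 * z := by ring
  rw [wf_eq, wf_eq, wf_eq, wf_eq, q1, q2, h1, h2, h3, h6]
  constructor <;> field_simp

lemma wfp5_1 {a b c d : ℤ} (hc : ((26 * 5 : ℕ) : ℤ) ∣ (1 : ℕ) * c)
    (hdet : (1 : ℕ) * a * d - b * c = 1) {z : ℂ} (hz : 0 < z.im) :
    wf (Wact 1 a b c d z) = wf z ∧ wf (5 * Wact 1 a b c d z) = wf (5 * z) := by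
  have hc' : (130 : ℤ) ∣ c := by push_cast at hc; omega
  have h1 := Rf_W1 1 1 1 1 1 1 rfl rfl rfl (by norm_num) (by norm_num) (by norm_num)
    (c := c) (by push_cast; omega) hdet hz
  have h2 := Rf_W1 2 1 1 2 1 2 rfl rfl rfl (by norm_num) (by norm_num) (by norm_num)
    (c := c) (by push_cast; omega) hdet hz
  have h5 := Rf_W1 5 1 1 5 1 5 rfl rfl rfl (by norm_num) (by norm_num) (by norm_num)
    (c := c) (by push_cast; omega) hdet hz
  have h10 := Rf_W1 10 1 1 10 1 10 rfl rfl rfl (by norm_num) (by norm_num) (by norm_num)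
    (c := c) (by push_cast; omega) hdet hz
  push_cast at h1 h2 h5 h10
  simp only [one_mul] at h1 h2 h5 h10
  have n1 := Rf_ne hz
  have n2 := Rf_ne (im_nat_mul (k := 2) (by norm_num) hz)
  have n5 := Rf_ne (im_nat_mul (k := 5) (by norm_num) hz)
  have n10 := Rf_ne (im_nat_mul (k := 10) (by norm_num) hz)
  push_cast at n2 n5 n10
  have q1 : (2 : ℂ) * (5 * Wact 1 a b c d z) = 10 * Wact 1 a b c d z := by ring
  have q2 : (2 : ℂ) * (5 * z) = 10 * z := by ring
  rw [wf_eq, wf_eq, wf_eq, wf_eq, q1, q2, h1, h2, h5, h10]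
  constructor <;> field_simp

lemma wfp5_2 {a b c d : ℤ} (hc : ((26 * 5 : ℕ) : ℤ) ∣ (2 : ℕ) * c)
    (hdet : (2 : ℕ) * a * d - b * c = 1) {z : ℂ} (hz : 0 < z.im) :
    wf (Wact 2 a b c d z) = (wf z)⁻¹ ∧ wf (5 * Wact 2 a b c d z) = (wf (5 * z))⁻¹ := by
  have hc' : (65 : ℤ) ∣ c := by push_cast at hc; omega
  have h1 := Rf_W1 1 2 1 1 2 2 rfl rfl rfl (by norm_num) (by norm_num) (by norm_num)
    (c := c) (by push_cast; omega) hdet hz
  have h2 := Rf_W1 2 2 2 1 1 1 rfl rfl rfl (by norm_num) (by norm_num) (by norm_num)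
    (c := c) (by push_cast; omega) hdet hz
  have h5 := Rf_W1 5 2 1 5 2 10 rfl rfl rfl (by norm_num) (by norm_num) (by norm_num)
    (c := c) (by push_cast; omega) hdet hz
  have h10 := Rf_W1 10 2 2 5 1 5 rfl rfl rfl (by norm_num) (by norm_num) (by norm_num)
    (c := c) (by push_cast; omega) hdet hz
  push_cast at h1 h2 h5 h10
  simp only [one_mul] at h1 h2 h5 h10
  have n1 := Rf_ne hz
  have n2 := Rf_ne (im_nat_mul (k := 2) (by norm_num) hz)
  have n5 := Rf_ne (im_nat_mul (k := 5) (by norm_num) hz)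
  have n10 := Rf_ne (im_nat_mul (k := 10) (by norm_num) hz)
  push_cast at n2 n5 n10
  have q1 : (2 : ℂ) * (5 * Wact 2 a b c d z) = 10 * Wact 2 a b c d z := by ring
  have q2 : (2 : ℂ) * (5 * z) = 10 * z := by ring
  rw [wf_eq, wf_eq, wf_eq, wf_eq, q1, q2, h1, h2, h5, h10]
  constructor <;> field_simp

lemma wfp5_5 {a b c d : ℤ} (hc : ((26 * 5 : ℕ) : ℤ) ∣ (5 : ℕ) * c)
    (hdet : (5 : ℕ) * a * d - b * c = 1) {z : ℂ} (hz : 0 < z.im) :
    wf (Wact 5 a b c d z) = wf (5 * z) ∧ wf (5 * Wact 5 a b c d z) = wf z := by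
  have hc' : (26 : ℤ) ∣ c := by push_cast at hc; omega
  have h1 := Rf_W1 1 5 1 1 5 5 rfl rfl rfl (by norm_num) (by norm_num) (by norm_num)
    (c := c) (by push_cast; omega) hdet hz
  have h2 := Rf_W1 2 5 1 2 5 10 rfl rfl rfl (by norm_num) (by norm_num) (by norm_num)
    (c := c) (by push_cast; omega) hdet hz
  have h5 := Rf_W1 5 5 5 1 1 1 rfl rfl rfl (by norm_num) (by norm_num) (by norm_num)
    (c := c) (by push_cast; omega) hdet hz
  have h10 := Rf_W1 10 5 5 2 1 2 rfl rfl rfl (by norm_num) (by norm_num) (by norm_num)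
    (c := c) (by push_cast; omega) hdet hz
  push_cast at h1 h2 h5 h10
  simp only [one_mul] at h1 h2 h5 h10
  have n1 := Rf_ne hz
  have n2 := Rf_ne (im_nat_mul (k := 2) (by norm_num) hz)
  have n5 := Rf_ne (im_nat_mul (k := 5) (by norm_num) hz)
  have n10 := Rf_ne (im_nat_mul (k := 10) (by norm_num) hz)
  push_cast at n2 n5 n10
  have q1 : (2 : ℂ) * (5 * Wact 5 a b c d z) = 10 * Wact 5 a b c d z := by ring
  have q2 : (2 : ℂ) * (5 * z) = 10 * z := by ring
  rw [wf_eq, wf_eq, wf_eq, wf_eq, q1, q2, h1, h2, h5, h10]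
  constructor <;> field_simp

lemma wfp5_10 {a b c d : ℤ} (hc : ((26 * 5 : ℕ) : ℤ) ∣ (10 : ℕ) * c)
    (hdet : (10 : ℕ) * a * d - b * c = 1) {z : ℂ} (hz : 0 < z.im) :
    wf (Wact 10 a b c d z) = (wf (5 * z))⁻¹ ∧ wf (5 * Wact 10 a b c d z) = (wf z)⁻¹ := by
  have hc' : (13 : ℤ) ∣ c := by push_cast at hc; omega
  have h1 := Rf_W1 1 10 1 1 10 10 rfl rfl rfl (by norm_num) (by norm_num) (by norm_num)
    (c := c) (by push_cast; omega) hdet hz
  have h2 := Rf_W1 2 10 2 1 5 5 rfl rfl rfl (by norm_num) (by norm_num) (by norm_num)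
    (c := c) (by push_cast; omega) hdet hz
  have h5 := Rf_W1 5 10 5 1 2 2 rfl rfl rfl (by norm_num) (by norm_num) (by norm_num)
    (c := c) (by push_cast; omega) hdet hz
  have h10 := Rf_W1 10 10 10 1 1 1 rfl rfl rfl (by norm_num) (by norm_num) (by norm_num)
    (c := c) (by push_cast; omega) hdet hz
  push_cast at h1 h2 h5 h10
  simp only [one_mul] at h1 h2 h5 h10
  have n1 := Rf_ne hz
  have n2 := Rf_ne (im_nat_mul (k := 2) (by norm_num) hz)
  have n5 := Rf_ne (im_nat_mul (k := 5) (by norm_num) hz)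
  have n10 := Rf_ne (im_nat_mul (k := 10) (by norm_num) hz)
  push_cast at n2 n5 n10
  have q1 : (2 : ℂ) * (5 * Wact 10 a b c d z) = 10 * Wact 10 a b c d z := by ring
  have q2 : (2 : ℂ) * (5 * z) = 10 * z := by ring
  rw [wf_eq, wf_eq, wf_eq, wf_eq, q1, q2, h1, h2, h5, h10]
  constructor <;> field_simp

lemma wfp5_13 {a b c d : ℤ} (hc : ((26 * 5 : ℕ) : ℤ) ∣ (13 : ℕ) * c)
    (hdet : (13 : ℕ) * a * d - b * c = 1) {z : ℂ} (hz : 0 < z.im) :
    wf (Wact 13 a b c d z) = (wf z)⁻¹ ∧ wf (5 * Wact 13 a b c d z) = (wf (5 * z))⁻¹ := by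
  have hc' : (10 : ℤ) ∣ c := by push_cast at hc; omega
  have h1 := Rf_W2 1 13 1 1 1 1 rfl rfl rfl (by norm_num) (by norm_num) (by norm_num)
    (c := c) (by push_cast; omega) hdet hz
  have h2 := Rf_W2 2 13 1 2 1 2 rfl rfl rfl (by norm_num) (by norm_num) (by norm_num)
    (c := c) (by push_cast; omega) hdet hz
  have h5 := Rf_W2 5 13 1 5 1 5 rfl rfl rfl (by norm_num) (by norm_num) (by norm_num)
    (c := c) (by push_cast; omega) hdet hz
  have h10 := Rf_W2 10 13 1 10 1 10 rfl rfl rfl (by norm_num) (by norm_num) (by norm_num)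
    (c := c) (by push_cast; omega) hdet hz
  push_cast at h1 h2 h5 h10
  simp only [one_mul] at h1 h2 h5 h10
  have n1 := Rf_ne hz
  have n2 := Rf_ne (im_nat_mul (k := 2) (by norm_num) hz)
  have n5 := Rf_ne (im_nat_mul (k := 5) (by norm_num) hz)
  have n10 := Rf_ne (im_nat_mul (k := 10) (by norm_num) hz)
  push_cast at n2 n5 n10
  have q1 : (2 : ℂ) * (5 * Wact 13 a b c d z) = 10 * Wact 13 a b c d z := by ring
  have q2 : (2 : ℂ) * (5 * z) = 10 * z := by ring
  rw [wf_eq, wf_eq, wf_eq, wf_eq, q1, q2, h1, h2, h5, h10]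
  constructor <;> field_simp

lemma wfp5_26 {a b c d : ℤ} (hc : ((26 * 5 : ℕ) : ℤ) ∣ (26 : ℕ) * c)
    (hdet : (26 : ℕ) * a * d - b * c = 1) {z : ℂ} (hz : 0 < z.im) :
    wf (Wact 26 a b c d z) = wf z ∧ wf (5 * Wact 26 a b c d z) = wf (5 * z) := by
  have hc' : (5 : ℤ) ∣ c := by push_cast at hc; omega
  have h1 := Rf_W2 1 26 1 1 2 2 rfl rfl rfl (by norm_num) (by norm_num) (by norm_num)
    (c := c) (by push_cast; omega) hdet hz
  have h2 := Rf_W2 2 26 2 1 1 1 rfl rfl rfl (by norm_num) (by norm_num) (by norm_num)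
    (c := c) (by push_cast; omega) hdet hz
  have h5 := Rf_W2 5 26 1 5 2 10 rfl rfl rfl (by norm_num) (by norm_num) (by norm_num)
    (c := c) (by push_cast; omega) hdet hz
  have h10 := Rf_W2 10 26 2 5 1 5 rfl rfl rfl (by norm_num) (by norm_num) (by norm_num)
    (c := c) (by push_cast; omega) hdet hz
  push_cast at h1 h2 h5 h10
  simp only [one_mul] at h1 h2 h5 h10
  have n1 := Rf_ne hz
  have n2 := Rf_ne (im_nat_mul (k := 2) (by norm_num) hz)
  have n5 := Rf_ne (im_nat_mul (k := 5) (by norm_num) hz)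
  have n10 := Rf_ne (im_nat_mul (k := 10) (by norm_num) hz)
  push_cast at n2 n5 n10
  have q1 : (2 : ℂ) * (5 * Wact 26 a b c d z) = 10 * Wact 26 a b c d z := by ring
  have q2 : (2 : ℂ) * (5 * z) = 10 * z := by ring
  rw [wf_eq, wf_eq, wf_eq, wf_eq, q1, q2, h1, h2, h5, h10]
  constructor <;> field_simp

lemma wfp5_65 {a b c d : ℤ} (hc : ((26 * 5 : ℕ) : ℤ) ∣ (65 : ℕ) * c)
    (hdet : (65 : ℕ) * a * d - b * c = 1) {z : ℂ} (hz : 0 < z.im) :
    wf (Wact 65 a b c d z) = (wf (5 * z))⁻¹ ∧ wf (5 * Wact 65 a b c d z) = (wf z)⁻¹ := by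
  have hc' : (2 : ℤ) ∣ c := by push_cast at hc; omega
  have h1 := Rf_W2 1 65 1 1 5 5 rfl rfl rfl (by norm_num) (by norm_num) (by norm_num)
    (c := c) (by push_cast; omega) hdet hz
  have h2 := Rf_W2 2 65 1 2 5 10 rfl rfl rfl (by norm_num) (by norm_num) (by norm_num)
    (c := c) (by push_cast; omega) hdet hz
  have h5 := Rf_W2 5 65 5 1 1 1 rfl rfl rfl (by norm_num) (by norm_num) (by norm_num)
    (c := c) (by push_cast; omega) hdet hz
  have h10 := Rf_W2 10 65 5 2 1 2 rfl rfl rfl (by norm_num) (by norm_num) (by norm_num)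
    (c := c) (by push_cast; omega) hdet hz
  push_cast at h1 h2 h5 h10
  simp only [one_mul] at h1 h2 h5 h10
  have n1 := Rf_ne hz
  have n2 := Rf_ne (im_nat_mul (k := 2) (by norm_num) hz)
  have n5 := Rf_ne (im_nat_mul (k := 5) (by norm_num) hz)
  have n10 := Rf_ne (im_nat_mul (k := 10) (by norm_num) hz)
  push_cast at n2 n5 n10
  have q1 : (2 : ℂ) * (5 * Wact 65 a b c d z) = 10 * Wact 65 a b c d z := by ring
  have q2 : (2 : ℂ) * (5 * z) = 10 * z := by ring
  rw [wf_eq, wf_eq, wf_eq, wf_eq, q1, q2, h1, h2, h5, h10]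
  constructor <;> field_simp

lemma wfp5_130 {a b c d : ℤ} (hc : ((26 * 5 : ℕ) : ℤ) ∣ (130 : ℕ) * c)
    (hdet : (130 : ℕ) * a * d - b * c = 1) {z : ℂ} (hz : 0 < z.im) :
    wf (Wact 130 a b c d z) = wf (5 * z) ∧ wf (5 * Wact 130 a b c d z) = wf z := by
  have hc' : (1 : ℤ) ∣ c := by push_cast at hc; omega
  have h1 := Rf_W2 1 130 1 1 10 10 rfl rfl rfl (by norm_num) (by norm_num) (by norm_num)
    (c := c) (by push_cast; omega) hdet hz
  have h2 := Rf_W2 2 130 2 1 5 5 rfl rfl rfl (by norm_num) (by norm_num) (by norm_num)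
    (c := c) (by push_cast; omega) hdet hz
  have h5 := Rf_W2 5 130 5 1 2 2 rfl rfl rfl (by norm_num) (by norm_num) (by norm_num)
    (c := c) (by push_cast; omega) hdet hz
  have h10 := Rf_W2 10 130 10 1 1 1 rfl rfl rfl (by norm_num) (by norm_num) (by norm_num)
    (c := c) (by push_cast; omega) hdet hz
  push_cast at h1 h2 h5 h10
  simp only [one_mul] at h1 h2 h5 h10
  have n1 := Rf_ne hz
  have n2 := Rf_ne (im_nat_mul (k := 2) (by norm_num) hz)
  have n5 := Rf_ne (im_nat_mul (k := 5) (by norm_num) hz)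
  have n10 := Rf_ne (im_nat_mul (k := 10) (by norm_num) hz)
  push_cast at n2 n5 n10
  have q1 : (2 : ℂ) * (5 * Wact 130 a b c d z) = 10 * Wact 130 a b c d z := by ring
  have q2 : (2 : ℂ) * (5 * z) = 10 * z := by ring
  rw [wf_eq, wf_eq, wf_eq, wf_eq, q1, q2, h1, h2, h5, h10]
  constructor <;> field_simp

end InvAux

open InvAux

/-- Module INVP, `p = 3`. -/
theorem invp3 : InvPStmt 3 := by
  intro e a b c d he hc hdet
  have he' : e ∈ Nat.divisors 78 := Nat.mem_divisors.mpr ⟨he, by norm_num⟩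
  have h2 : Nat.divisors 78 = {1, 2, 3, 6, 13, 26, 39, 78} := by decide +kernel
  rw [h2] at he'
  simp only [Finset.mem_insert, Finset.mem_singleton] at he'
  rcases he' with rfl | rfl | rfl | rfl | rfl | rfl | rfl | rfl
  · exact Or.inl fun z hz => by simpa using wfp3_1 hc hdet hz
  · exact Or.inr (Or.inl fun z hz => by simpa using wfp3_2 hc hdet hz)
  · exact Or.inr (Or.inr (Or.inl fun z hz => by simpa using wfp3_3 hc hdet hz))
  · exact Or.inr (Or.inr (Or.inr fun z hz => by simpa using wfp3_6 hc hdet hz))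
  · exact Or.inr (Or.inl fun z hz => by simpa using wfp3_13 hc hdet hz)
  · exact Or.inl fun z hz => by simpa using wfp3_26 hc hdet hz
  · exact Or.inr (Or.inr (Or.inr fun z hz => by simpa using wfp3_39 hc hdet hz))
  · exact Or.inr (Or.inr (Or.inl fun z hz => by simpa using wfp3_78 hc hdet hz))

/-- Module INVP, `p = 5`. -/
theorem invp5 : InvPStmt 5 := by
  intro e a b c d he hc hdet
  have he' : e ∈ Nat.divisors 130 := Nat.mem_divisors.mpr ⟨he, by norm_num⟩
  have h2 : Nat.divisors 130 = {1, 2, 5, 10, 13, 26, 65, 130} := by decide +kernel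
  rw [h2] at he'
  simp only [Finset.mem_insert, Finset.mem_singleton] at he'
  rcases he' with rfl | rfl | rfl | rfl | rfl | rfl | rfl | rfl
  · exact Or.inl fun z hz => by simpa using wfp5_1 hc hdet hz
  · exact Or.inr (Or.inl fun z hz => by simpa using wfp5_2 hc hdet hz)
  · exact Or.inr (Or.inr (Or.inl fun z hz => by simpa using wfp5_5 hc hdet hz))
  · exact Or.inr (Or.inr (Or.inr fun z hz => by simpa using wfp5_10 hc hdet hz))
  · exact Or.inr (Or.inl fun z hz => by simpa using wfp5_13 hc hdet hz)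
  · exact Or.inl fun z hz => by simpa using wfp5_26 hc hdet hz
  · exact Or.inr (Or.inr (Or.inr fun z hz => by simpa using wfp5_65 hc hdet hz))
  · exact Or.inr (Or.inr (Or.inl fun z hz => by simpa using wfp5_130 hc hdet hz))

/-- Module INVP. -/
theorem invp : InvPStmt 3 ∧ InvPStmt 5 := ⟨invp3, invp5⟩

end Pool.Agent.H85.Pi
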